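import Pool.Agent.LKU.Stmts

/-!
# Row WLZ of squad LKU: the wall of the two end links
-/

set_option autoImplicit false

namespace Pool.Agent.LKU.H74

open Pool.Agent.LCK Pool.Agent.LKT

theorem low (u v : E3) (a a0 t : ℝ) (h : 0 ≤ inner ℝ u v) (h0 : 0 ≤ a0) (ha : a0 ≤ a)
    (ht : 0 ≤ t) : a0 * ‖u‖ ≤ ‖a • u + t • v‖ := by
  have e : ‖a • u + t • v‖ ^ 2 = (a * ‖u‖) ^ 2 + 2 * (a * t * inner ℝ u v) + (t * ‖v‖) ^ 2 := by
    rw [norm_add_sq_real, norm_smul, norm_smul, real_inner_smul_left, real_inner_smul_right,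
      Real.norm_eq_abs, Real.norm_eq_abs, abs_of_nonneg (h0.trans ha), abs_of_nonneg ht]
    ring
  have h1 : 0 ≤ a * t * inner ℝ u v := mul_nonneg (mul_nonneg (h0.trans ha) ht) h
  have h2 : a0 * ‖u‖ ≤ a * ‖u‖ := mul_le_mul_of_nonneg_right ha (norm_nonneg _)
  have h3 : 0 ≤ a0 * ‖u‖ := mul_nonneg h0 (norm_nonneg _)
  have h4 : (a0 * ‖u‖) ^ 2 ≤ (a * ‖u‖) ^ 2 := pow_le_pow_left₀ h3 h2 2
  have h5 : 0 ≤ (t * ‖v‖) ^ 2 := sq_nonneg _
  have h6 : (a0 * ‖u‖) ^ 2 ≤ ‖a • u + t • v‖ ^ 2 := by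
    rw [e]
    linarith
  exact (pow_le_pow_iff_left₀ h3 (norm_nonneg _) two_ne_zero).1 h6

/-- the norm of a convex combination -/
theorem upp (c w y1 y2 : E3) (r S p1 p2 : ℝ) (h1 : 0 < p1) (h2 : 0 < p2) (hs : S = p1 + p2)
    (he : p1 • y1 + p2 • y2 = S • c + w) (n1 : ‖y1 - c‖ < r) (n2 : ‖y2 - c‖ < r) :
    ‖w‖ < S * r := by
  have e : w = p1 • (y1 - c) + p2 • (y2 - c) := by
    have h : w = p1 • y1 + p2 • y2 - S • c := by rw [he]; abel
    rw [h, hs]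
    module
  rw [e]
  calc ‖p1 • (y1 - c) + p2 • (y2 - c)‖ ≤ ‖p1 • (y1 - c)‖ + ‖p2 • (y2 - c)‖ := norm_add_le _ _
    _ = p1 * ‖y1 - c‖ + p2 * ‖y2 - c‖ := by
        rw [norm_smul, norm_smul, Real.norm_eq_abs, Real.norm_eq_abs, abs_of_pos h1, abs_of_pos h2]
    _ < p1 * r + p2 * r := add_lt_add (mul_lt_mul_of_pos_left n1 h1) (mul_lt_mul_of_pos_left n2 h2)
    _ = S * r := by rw [hs]; ring

/-- moving the last row to the first place -/
theorem rot (h1 : CrmStmt) (a b c d : Fin 4 → ℝ) : d4 d a b c = - d4 a b c d := by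
  have e := h1.2.1
  rw [(e a d b c).1, (e a b d c).2.1, (e a b c d).2.2]
  ring

theorem dup (h1 : CrmStmt) (a b c : Fin 4 → ℝ) : d4 a b c a = 0 := by
  have h := rot h1 a b c a
  rw [h1.2.2.2 a b c] at h
  linarith

theorem ind (h1 : CrmStmt) (P0 P1 P5 P7 : Fin 4 → ℝ) (hD : d4 P0 P1 P5 P7 ≠ 0) (al be : ℝ)
    (h : ∀ i, al * P0 i + be * P7 i = 0) : al = 0 ∧ be = 0 := by
  have hz : al • P0 + be • P7 = (0 : ℝ) • P0 + (0 : ℝ) • P0 := by
    funext i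
    simpa using h i
  have lin := h1.2.2.1
  have z : ∀ b c d, d4 (al • P0 + be • P7) b c d = 0 := by
    intro b c d
    rw [hz, lin]
    ring
  constructor
  · have a1 := z P1 P5 P7
    rw [lin, dup h1 P7 P1 P5, mul_zero, add_zero] at a1
    exact (mul_eq_zero.1 a1).resolve_right hD
  · have a1 := z P0 P1 P5
    rw [lin, h1.2.2.2 P0 P1 P5, mul_zero, zero_add, rot h1 P0 P1 P5 P7] at a1
    exact (mul_eq_zero.1 a1).resolve_right (neg_ne_zero.2 hD)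

/-- the two inequalities -/
theorem geo (x : Fin 8 → E3) (s A B T p4 p5 a t s' b U q3 q4 a2 t2 s2 b2 : ℝ)
    (hn0 : ∀ j : Fin 8, 2 ≤ j → j ≤ 5 → ‖x j - x 1‖ < ‖x 0‖)
    (hn7 : ∀ j : Fin 8, 1 ≤ j → j ≤ 5 → ‖x j - x 6‖ < ‖x 7‖)
    (ps : 0 < s) (pA : 0 < A) (pB : 0 < B) (pT : 0 < T) (pp4 : 0 < p4) (pp5 : 0 < p5) (pa : 0 < a)
    (pt : 0 < t) (ps' : 0 < s') (pb : 0 < b) (pU : 0 < U) (pq3 : 0 < q3) (pq4 : 0 < q4)
    (pt2 : 0 < t2) (ps2 : 0 < s2)
    (v1 : s • x 1 + A • x 0 = s • x 6 + B • x 7)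
    (hT : T = p4 + p5) (hU : U = q3 + q4)
    (v2 : p4 • x 4 + p5 • x 5 = T • x 1 + (a • x 0 + t • x 7))
    (v3 : p4 • x 4 + p5 • x 5 = T • x 6 + (s' • x 0 + b • x 7))
    (v4 : q3 • x 3 + q4 • x 4 = U • x 1 + (a2 • x 0 + t2 • (-x 7)))
    (k1 : a * s = A * T + s' * s) (k2 : b * s = B * T + t * s)
    (k3 : a2 * s = A * U + s2 * s) : A < s ∧ B < s := by
  have n0 : 0 < ‖x 0‖ := lt_of_le_of_lt (norm_nonneg _) (hn0 2 (by decide) (by decide))
  have n7 : 0 < ‖x 7‖ := lt_of_le_of_lt (norm_nonneg _) (hn7 1 (by decide) (by decide))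
  have scal : ∀ (w : E3), ‖s • w‖ = s * ‖w‖ := by
    intro w
    rw [norm_smul, Real.norm_eq_abs, abs_of_pos ps]
  rcases le_total 0 (inner ℝ (x 0) (x 7)) with hi | hi
  · constructor
    · have u := upp (x 1) (a • x 0 + t • x 7) (x 4) (x 5) _ T p4 p5 pp4 pp5 hT v2
        (hn0 4 (by decide) (by decide)) (hn0 5 (by decide) (by decide))
      have l := low (x 0) (x 7) (a * s) (A * T) (t * s) hi (mul_pos pA pT).le
        (by rw [k1]; linarith [mul_pos ps' ps]) (mul_pos pt ps).le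
      have e : (a * s) • x 0 + (t * s) • x 7 = s • (a • x 0 + t • x 7) := by module
      rw [e, scal] at l
      have h := lt_of_le_of_lt l (mul_lt_mul_of_pos_left u ps)
      have h' : A * (T * ‖x 0‖) < s * (T * ‖x 0‖) := by linarith
      exact lt_of_mul_lt_mul_right h' (mul_pos pT n0).le
    · have u := upp (x 6) (s' • x 0 + b • x 7) (x 4) (x 5) _ T p4 p5 pp4 pp5 hT v3
        (hn7 4 (by decide) (by decide)) (hn7 5 (by decide) (by decide))
      have l := low (x 7) (x 0) (b * s) (B * T) (s' * s) (by rw [real_inner_comm]; exact hi)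
        (mul_pos pB pT).le (by rw [k2]; linarith [mul_pos pt ps]) (mul_pos ps' ps).le
      have e : (b * s) • x 7 + (s' * s) • x 0 = s • (s' • x 0 + b • x 7) := by module
      rw [e, scal] at l
      have h := lt_of_le_of_lt l (mul_lt_mul_of_pos_left u ps)
      have h' : B * (T * ‖x 7‖) < s * (T * ‖x 7‖) := by linarith
      exact lt_of_mul_lt_mul_right h' (mul_pos pT n7).le
  · have hi' : 0 ≤ inner ℝ (x 0) (-x 7) := by
      rw [inner_neg_right]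
      linarith
    constructor
    · have u := upp (x 1) (a2 • x 0 + t2 • (-x 7)) (x 3) (x 4) _ U q3 q4 pq3 pq4 hU v4
        (hn0 3 (by decide) (by decide)) (hn0 4 (by decide) (by decide))
      have l := low (x 0) (-x 7) (a2 * s) (A * U) (t2 * s) hi' (mul_pos pA pU).le
        (by rw [k3]; linarith [mul_pos ps2 ps]) (mul_pos pt2 ps).le
      have e : (a2 * s) • x 0 + (t2 * s) • (-x 7) = s • (a2 • x 0 + t2 • (-x 7)) := by module
      rw [e, scal] at l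
      have h := lt_of_le_of_lt l (mul_lt_mul_of_pos_left u ps)
      have h' : A * (U * ‖x 0‖) < s * (U * ‖x 0‖) := by linarith
      exact lt_of_mul_lt_mul_right h' (mul_pos pU n0).le
    · have l := low (-x 7) (x 0) B B A (by rw [real_inner_comm]; exact hi') pB.le le_rfl pA.le
      have e : B • (-x 7) + A • x 0 = s • (x 6 - x 1) := by
        have h : A • x 0 = s • x 6 + B • x 7 - s • x 1 := by rw [← v1]; abel
        rw [h]
        module
      rw [e, scal, norm_neg] at l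
      have u : ‖x 6 - x 1‖ < ‖x 7‖ := by
        rw [norm_sub_rev]
        exact hn7 1 (by decide) (by decide)
      have h := lt_of_le_of_lt l (mul_lt_mul_of_pos_left u ps)
      exact lt_of_mul_lt_mul_right h n7.le

/-- the wall of the two end links -/
theorem wlz (h1 : CrmStmt) : WlzStmt := by
  intro x hx h h11
  obtain ⟨hdis, hn0, hn7⟩ := hx
  have g2 : 0 < ((-1 : ℤ) : ℝ) * D x 0 1 3 4 := h 2 (by norm_num) (by norm_num)
  have g5 : 0 < ((1 : ℤ) : ℝ) * D x 0 1 3 7 := h 5 (by norm_num) (by norm_num)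
  have g6 : 0 < ((-1 : ℤ) : ℝ) * D x 0 1 4 5 := h 6 (by norm_num) (by norm_num)
  have g8 : 0 < ((-1 : ℤ) : ℝ) * D x 0 1 4 7 := h 8 (by norm_num) (by norm_num)
  have g9 : 0 < ((-1 : ℤ) : ℝ) * D x 0 1 5 6 := h 9 (by norm_num) (by norm_num)
  have g10 : 0 < ((1 : ℤ) : ℝ) * D x 0 1 5 7 := h 10 (by norm_num) (by norm_num)
  have g15 : 0 < ((1 : ℤ) : ℝ) * D x 0 3 4 6 := h 15 (by norm_num) (by norm_num)
  have g16 : 0 < ((-1 : ℤ) : ℝ) * D x 0 3 4 7 := h 16 (by norm_num) (by norm_num)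
  have g17 : 0 < ((-1 : ℤ) : ℝ) * D x 0 3 6 7 := h 17 (by norm_num) (by norm_num)
  have g18 : 0 < ((-1 : ℤ) : ℝ) * D x 0 4 5 6 := h 18 (by norm_num) (by norm_num)
  have g19 : 0 < ((1 : ℤ) : ℝ) * D x 0 4 5 7 := h 19 (by norm_num) (by norm_num)
  have g20 : 0 < ((1 : ℤ) : ℝ) * D x 0 4 6 7 := h 20 (by norm_num) (by norm_num)
  have g21 : 0 < ((-1 : ℤ) : ℝ) * D x 0 5 6 7 := h 21 (by norm_num) (by norm_num)
  have g33 : 0 < ((1 : ℤ) : ℝ) * D x 1 3 4 7 := h 33 (by norm_num) (by norm_num)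
  have g37 : 0 < ((-1 : ℤ) : ℝ) * D x 1 4 5 7 := h 37 (by norm_num) (by norm_num)
  have g39 : 0 < ((1 : ℤ) : ℝ) * D x 1 5 6 7 := h 39 (by norm_num) (by norm_num)
  have g50 : 0 < ((1 : ℤ) : ℝ) * D x 3 4 6 7 := h 50 (by norm_num) (by norm_num)
  have g52 : 0 < ((-1 : ℤ) : ℝ) * D x 4 5 6 7 := h 52 (by norm_num) (by norm_num)
  have w11 : ((1 : ℤ) : ℝ) * D x 0 1 6 7 = 0 := h11
  push_cast at g2 g5 g6 g8 g9 g10 g15 g16 g17 g18 g19 g20 g21 g33 g37 g39 g50 g52 w11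
  have z11 : d4 (hom x 0) (hom x 1) (hom x 6) (hom x 7) = 0 := by
    have : D x 0 1 6 7 = 0 := by linarith
    exact this
  have c0 : hom x 0 0 = 0 := rfl
  have c1 : hom x 1 0 = 1 := rfl
  have c3 : hom x 3 0 = 1 := rfl
  have c4 : hom x 4 0 = 1 := rfl
  have c5 : hom x 5 0 = 1 := rfl
  have c6 : hom x 6 0 = 1 := rfl
  have c7 : hom x 7 0 = 0 := rfl
  have hc : ∀ (j : Fin 8) (i : Fin 3), hom x j i.succ = x j i := by
    intro j i
    fin_cases i <;> rfl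
  have k1 := fun i => h1.1 (hom x 0) (hom x 1) (hom x 5) (hom x 6) (hom x 7) i
  simp only [z11, zero_mul, add_zero] at k1
  have k2 := fun i => h1.1 (hom x 0) (hom x 1) (hom x 4) (hom x 5) (hom x 7) i
  have k3 := fun i => h1.1 (hom x 0) (hom x 4) (hom x 5) (hom x 6) (hom x 7) i
  have k4 := fun i => h1.1 (hom x 0) (hom x 1) (hom x 3) (hom x 4) (hom x 7) i
  have k5 := fun i => h1.1 (hom x 0) (hom x 3) (hom x 4) (hom x 6) (hom x 7) i
  change ∀ i, D x 1 5 6 7 * hom x 0 i - D x 0 5 6 7 * hom x 1 i - D x 0 1 5 7 * hom x 6 i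
    + D x 0 1 5 6 * hom x 7 i = 0 at k1
  change ∀ i, D x 1 4 5 7 * hom x 0 i - D x 0 4 5 7 * hom x 1 i + D x 0 1 5 7 * hom x 4 i
    - D x 0 1 4 7 * hom x 5 i + D x 0 1 4 5 * hom x 7 i = 0 at k2
  change ∀ i, D x 4 5 6 7 * hom x 0 i - D x 0 5 6 7 * hom x 4 i + D x 0 4 6 7 * hom x 5 i
    - D x 0 4 5 7 * hom x 6 i + D x 0 4 5 6 * hom x 7 i = 0 at k3
  change ∀ i, D x 1 3 4 7 * hom x 0 i - D x 0 3 4 7 * hom x 1 i + D x 0 1 4 7 * hom x 3 i
    - D x 0 1 3 7 * hom x 4 i + D x 0 1 3 4 * hom x 7 i = 0 at k4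
  change ∀ i, D x 3 4 6 7 * hom x 0 i - D x 0 4 6 7 * hom x 3 i + D x 0 3 6 7 * hom x 4 i
    - D x 0 3 4 7 * hom x 6 i + D x 0 3 4 6 * hom x 7 i = 0 at k5
  have e1 := k1 0
  rw [c0, c1, c6, c7] at e1
  have e2 := k2 0
  rw [c0, c1, c4, c5, c7] at e2
  have e3 := k3 0
  rw [c0, c4, c5, c6, c7] at e3
  have e4 := k4 0
  rw [c0, c1, c3, c4, c7] at e4
  have e5 := k5 0
  rw [c0, c3, c4, c6, c7] at e5
  have m1 : D x 0 5 6 7 = - D x 0 1 5 7 := by linarith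
  have m2 : D x 0 4 6 7 = - D x 0 1 4 7 := by linarith
  have m3 : D x 0 3 6 7 = - D x 0 1 3 7 := by linarith
  rw [m1] at k1 k3
  rw [m2] at k3 k5
  rw [m3] at k5
  have hne : d4 (hom x 0) (hom x 1) (hom x 5) (hom x 7) ≠ 0 := by
    have : 0 < D x 0 1 5 7 := by linarith
    exact this.ne'
  have r1 := ind h1 _ _ _ _ hne
    ((-D x 1 4 5 7) * D x 0 1 5 7 - D x 1 5 6 7 * D x 0 4 5 7 - (-D x 4 5 6 7) * D x 0 1 5 7)
    ((-D x 0 1 4 5) * D x 0 1 5 7 + (-D x 0 1 5 6) * D x 0 4 5 7 - (-D x 0 4 5 6) * D x 0 1 5 7)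
    (by
      intro i
      linear_combination (-D x 0 1 5 7) * k2 i + D x 0 1 5 7 * k3 i - D x 0 4 5 7 * k1 i)
  have r2 := ind h1 _ _ _ _ hne
    (D x 1 3 4 7 * D x 0 1 5 7 - D x 1 5 6 7 * (-D x 0 3 4 7) - D x 3 4 6 7 * D x 0 1 5 7)
    (D x 0 1 3 4 * D x 0 1 5 7 + (-D x 0 1 5 6) * (-D x 0 3 4 7) - D x 0 3 4 6 * D x 0 1 5 7)
    (by
      intro i
      linear_combination D x 0 1 5 7 * k4 i - D x 0 1 5 7 * k5 i + D x 0 3 4 7 * k1 i)
  have v1 : (D x 0 1 5 7) • x 1 + (D x 1 5 6 7) • x 0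
      = (D x 0 1 5 7) • x 6 + (-D x 0 1 5 6) • x 7 := by
    ext i
    have h5 := k1 i.succ
    simp only [hc] at h5
    simp only [PiLp.add_apply, PiLp.smul_apply, smul_eq_mul]
    linear_combination h5
  have v2 : (D x 0 1 5 7) • x 4 + (-D x 0 1 4 7) • x 5
      = (D x 0 4 5 7) • x 1 + ((-D x 1 4 5 7) • x 0 + (-D x 0 1 4 5) • x 7) := by
    ext i
    have h5 := k2 i.succ
    simp only [hc] at h5
    simp only [PiLp.add_apply, PiLp.smul_apply, smul_eq_mul]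
    linear_combination h5
  have v3 : (D x 0 1 5 7) • x 4 + (-D x 0 1 4 7) • x 5
      = (D x 0 4 5 7) • x 6 + ((-D x 4 5 6 7) • x 0 + (-D x 0 4 5 6) • x 7) := by
    ext i
    have h5 := k3 i.succ
    simp only [hc] at h5
    simp only [PiLp.add_apply, PiLp.smul_apply, smul_eq_mul]
    linear_combination h5
  have v4 : (-D x 0 1 4 7) • x 3 + (D x 0 1 3 7) • x 4
      = (-D x 0 3 4 7) • x 1 + ((D x 1 3 4 7) • x 0 + (-D x 0 1 3 4) • (-x 7)) := by
    ext i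
    have h5 := k4 i.succ
    simp only [hc] at h5
    simp only [PiLp.add_apply, PiLp.smul_apply, PiLp.neg_apply, smul_eq_mul]
    linear_combination -h5
  have hG := geo x (D x 0 1 5 7) (D x 1 5 6 7) (-D x 0 1 5 6) (D x 0 4 5 7) (D x 0 1 5 7)
    (-D x 0 1 4 7) (-D x 1 4 5 7) (-D x 0 1 4 5) (-D x 4 5 6 7) (-D x 0 4 5 6) (-D x 0 3 4 7)
    (-D x 0 1 4 7) (D x 0 1 3 7) (D x 1 3 4 7) (-D x 0 1 3 4) (D x 3 4 6 7) 0 hn0 hn7
    (by linarith) (by linarith) (by linarith) (by linarith) (by linarith) (by linarith)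
    (by linarith) (by linarith) (by linarith) (by linarith) (by linarith) (by linarith)
    (by linarith) (by linarith) (by linarith) v1 (by linarith) (by linarith) v2 v3 v4
    (by linarith [r1.1]) (by linarith [r1.2]) (by linarith [r2.1])
  obtain ⟨hA, hB⟩ := hG
  have ps : 0 < D x 0 1 5 7 := by linarith
  have pA : 0 < D x 1 5 6 7 := by linarith
  have pB : 0 < -D x 0 1 5 6 := by linarith
  generalize D x 0 1 5 7 = s at *
  generalize D x 1 5 6 7 = A at *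
  generalize -D x 0 1 5 6 = B at *
  have w1 : x 1 + (A / s) • x 0 = x 6 + (B / s) • x 7 := by
    have e : s⁻¹ • (s • x 1 + A • x 0) = s⁻¹ • (s • x 6 + B • x 7) := by rw [v1]
    rw [smul_add, smul_add, smul_smul, smul_smul, smul_smul, smul_smul, inv_mul_cancel₀ ps.ne',
      one_smul, one_smul] at e
    rw [div_eq_inv_mul, div_eq_inv_mul]
    exact e
  have hd := hdis 0 6 (by decide)
  have hq1 : x 1 + (A / s) • x 0 ∈ segment ℝ (x 1 + x 0) (x 1) := by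
    refine ⟨A / s, 1 - A / s, (div_pos pA ps).le, ?_, by ring, ?_⟩
    · rw [sub_nonneg, div_le_one ps]
      exact hA.le
    · show (A / s) • (x 1 + x 0) + (1 - A / s) • x 1 = x 1 + (A / s) • x 0
      module
  have hq2 : x 1 + (A / s) • x 0 ∈ segment ℝ (x 6) (x 6 + x 7) := by
    rw [w1]
    refine ⟨1 - B / s, B / s, ?_, (div_pos pB ps).le, by ring, ?_⟩
    · rw [sub_nonneg, div_le_one ps]
      exact hB.le
    · show (1 - B / s) • x 6 + (B / s) • (x 6 + x 7) = x 6 + (B / s) • x 7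
      module
  exact Set.disjoint_left.1 hd hq1 hq2

end Pool.Agent.LKU.H74
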